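import Pool.Agent.Y499.HC.Stm2

/-! # Project HC: the pointwise inequality for square roots and its case of equality -/

set_option autoImplicit false

open Real

namespace Pool.Agent.Y64.HC

/-- Bernoulli's inequality. -/
theorem tan2 (d : ℕ) (hd : 2 ≤ d) (q c y : ℝ) (hc : 0 < c) (hy : 0 ≤ y) :
    1 + q ^ 2 * (y - c ^ 2) / 2 ≤
      1 + q ^ 2 / (d * c ^ (d - 2)) * (y ^ ((d : ℝ) / 2) - c ^ d) := by
  have hd' : (2 : ℝ) ≤ d := by exact_mod_cast hd
  have hB := one_add_mul_self_le_rpow_one_add (s := y / c ^ 2 - 1) (by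
    have : 0 ≤ y / c ^ 2 := by positivity
    linarith) (p := (d : ℝ) / 2) (by rw [le_div_iff₀ (by norm_num)]; linarith)
  have h2 : 1 + (y / c ^ 2 - 1) = y / c ^ 2 := by ring
  have h3 : (y / c ^ 2) ^ ((d : ℝ) / 2) = y ^ ((d : ℝ) / 2) / c ^ d := by
    rw [Real.div_rpow hy (by positivity)]
    congr 1
    rw [← Real.rpow_natCast c 2, ← Real.rpow_mul hc.le, ← Real.rpow_natCast c d]
    congr 1
    push_cast
    ring
  rw [h2, h3, le_div_iff₀ (by positivity)] at hB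
  have hcd : c ^ d = c ^ (d - 2) * c ^ 2 := by rw [← pow_add]; congr 1; omega
  have h4 : (1 + (d : ℝ) / 2 * (y / c ^ 2 - 1)) * c ^ d =
      c ^ d + (d : ℝ) / 2 * (c ^ (d - 2) * (y - c ^ 2)) := by
    rw [hcd]
    field_simp
  rw [h4] at hB
  have hK : 0 < (d : ℝ) * c ^ (d - 2) := by positivity
  have h5 : q ^ 2 / (d * c ^ (d - 2)) * (y ^ ((d : ℝ) / 2) - c ^ d) -
      q ^ 2 * (y - c ^ 2) / 2 = q ^ 2 / (d * c ^ (d - 2)) *
        ((y ^ ((d : ℝ) / 2) - c ^ d) - (d : ℝ) / 2 * (c ^ (d - 2) * (y - c ^ 2))) := by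
    field_simp
  have h6 : 0 ≤ q ^ 2 / (d * c ^ (d - 2)) *
        ((y ^ ((d : ℝ) / 2) - c ^ d) - (d : ℝ) / 2 * (c ^ (d - 2) * (y - c ^ 2))) :=
    mul_nonneg (by positivity) (by linarith)
  linarith

theorem sqrt_half (A B : ℝ) (h1 : 0 ≤ A + B) (h2 : 0 ≤ A - B) :
    (√(A + B) + √(A - B)) / 2 ≤ √A := by
  apply Real.le_sqrt_of_sq_le
  have e1 := Real.sq_sqrt h1
  have e2 := Real.sq_sqrt h2
  nlinarith [sq_nonneg (√(A + B) - √(A - B))]

theorem sqrt_half_eq (A B : ℝ) (h1 : 0 ≤ A + B) (h2 : 0 ≤ A - B)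
    (h : √A ≤ (√(A + B) + √(A - B)) / 2) : B = 0 := by
  have hA : 0 ≤ A := by linarith
  have e1 := Real.sq_sqrt h1
  have e2 := Real.sq_sqrt h2
  have e3 := Real.sq_sqrt hA
  have h0 := Real.sqrt_nonneg A
  have h3 : (√(A + B) - √(A - B)) ^ 2 ≤ 0 := by nlinarith
  have h4 : √(A + B) - √(A - B) = 0 := by
    have := sq_nonneg (√(A + B) - √(A - B))
    exact pow_eq_zero_iff (two_ne_zero) |>.1 (le_antisymm h3 this)
  have h5 : √(A + B) = √(A - B) := by linarith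
  have h6 : A + B = A - B := by
    rw [← e1, ← e2, h5]
  linarith

/-- One term. -/
theorem term_le (a p q b g r : ℝ) (ha : a ≤ 1) (hr : 0 < r)
    (h1 : 0 ≤ a * p ^ 2 + 2 * p * q * b + q ^ 2 * g)
    (h2 : 0 ≤ a * p ^ 2 - 2 * p * q * b + q ^ 2 * g) :
    (√(a * p ^ 2 + 2 * p * q * b + q ^ 2 * g) + √(a * p ^ 2 - 2 * p * q * b + q ^ 2 * g)) ≤
      (p ^ 2 + q ^ 2 * g + r ^ 2) / r ∧
    ((√(a * p ^ 2 + 2 * p * q * b + q ^ 2 * g) + √(a * p ^ 2 - 2 * p * q * b + q ^ 2 * g)) =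
      (p ^ 2 + q ^ 2 * g + r ^ 2) / r → p ≠ 0 → q ≠ 0 →
      a = 1 ∧ b = 0 ∧ p ^ 2 + q ^ 2 * g = r ^ 2) := by
  have e1 : a * p ^ 2 + 2 * p * q * b + q ^ 2 * g = (a * p ^ 2 + q ^ 2 * g) + 2 * p * q * b := by
    ring
  have e2 : a * p ^ 2 - 2 * p * q * b + q ^ 2 * g = (a * p ^ 2 + q ^ 2 * g) - 2 * p * q * b := by
    ring
  rw [e1] at h1 ⊢
  rw [e2] at h2 ⊢
  set A := a * p ^ 2 + q ^ 2 * g with hA
  set B := 2 * p * q * b with hB
  have hA0 : 0 ≤ A := by linarith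
  have h3 := sqrt_half A B h1 h2
  have h4 : √A * (2 * r) ≤ A + r ^ 2 := by
    have := Real.sq_sqrt hA0
    nlinarith [sq_nonneg (√A - r)]
  have h5 : A ≤ p ^ 2 + q ^ 2 * g := by
    have : a * p ^ 2 ≤ p ^ 2 := by nlinarith [sq_nonneg p]
    linarith
  have h6 : (√(A + B) + √(A - B)) ≤ (p ^ 2 + q ^ 2 * g + r ^ 2) / r := by
    rw [le_div_iff₀ hr]
    nlinarith
  refine ⟨h6, fun he hp hq => ?_⟩
  rw [eq_div_iff hr.ne'] at he
  have h7 : √A * (2 * r) = A + r ^ 2 := by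
    have : (√(A + B) + √(A - B)) * r ≤ √A * (2 * r) := by nlinarith
    linarith
  have h8 : A = p ^ 2 + q ^ 2 * g := by
    have : (√(A + B) + √(A - B)) * r ≤ √A * (2 * r) := by nlinarith
    linarith
  have h9 : √A ≤ (√(A + B) + √(A - B)) / 2 := by
    have h10 : (√(A + B) + √(A - B)) * r = √A * (2 * r) := by linarith
    have h11 : √(A + B) + √(A - B) = √A * 2 := by
      apply mul_right_cancel₀ hr.ne'
      linarith
    linarith
  have hB0 := sqrt_half_eq A B h1 h2 h9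
  have h12 : √A = r := by
    have := Real.sq_sqrt hA0
    have h13 : (√A - r) ^ 2 = 0 := by nlinarith
    have := pow_eq_zero_iff (two_ne_zero) |>.1 h13
    linarith
  refine ⟨?_, ?_, ?_⟩
  · have h13 : (a - 1) * p ^ 2 = 0 := by linarith
    rcases mul_eq_zero.1 h13 with h14 | h14
    · linarith
    · exact absurd (pow_eq_zero_iff (two_ne_zero) |>.1 h14) hp
  · have h13 : 2 * p * q ≠ 0 := mul_ne_zero (mul_ne_zero two_ne_zero hp) hq
    exact (mul_eq_zero.1 hB0).resolve_left h13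
  · rw [← h8, ← h12]
    exact (Real.sq_sqrt hA0).symm

theorem t_PTW : Pool.Agent.Y499.HR.T_PTW := by
  intro d hd a p q c β g ha hc h hg hp1 hp2
  have hd' : (2 : ℝ) ≤ d := by exact_mod_cast hd
  have hd0 : (0 : ℝ) < d := by linarith
  set y : ℝ := (∑ i, g i) / d with hy
  have hsum : ∑ i, g i = d * y := by
    rw [hy]
    field_simp
  have hy0 : 0 ≤ y := div_nonneg (Finset.sum_nonneg fun i _ => hg i) hd0.le
  have htan := tan2 d hd q c y hc hy0
  have e : p ^ 2 + q ^ 2 * y = 1 + q ^ 2 * (y - c ^ 2) := by linear_combination h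
  have hz0 : 0 ≤ p ^ 2 + q ^ 2 * y := by positivity
  rcases hz0.eq_or_lt with h0 | h0
  · have hp : p = 0 := by
      have h1 : 0 ≤ q ^ 2 * y := by positivity
      have h2 : p ^ 2 ≤ 0 := by linarith
      exact pow_eq_zero_iff (two_ne_zero) |>.1 (le_antisymm h2 (sq_nonneg p))
    refine ⟨?_, fun _ hp' => absurd hp hp'⟩
    have hqy : ∑ i, q ^ 2 * g i = 0 := by
      rw [← Finset.mul_sum, hsum]
      have : q ^ 2 * y = 0 := by
        rw [hp] at h0
        linarith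
      linear_combination (d : ℝ) * this
    have hqi : ∀ i, q ^ 2 * g i = 0 := by
      intro i
      exact (Finset.sum_eq_zero_iff_of_nonneg (fun i _ => mul_nonneg (sq_nonneg q) (hg i))).1 hqy i
        (Finset.mem_univ i)
    have hterm : ∀ i, (√(a * p ^ 2 + 2 * p * q * β i + q ^ 2 * g i) +
        √(a * p ^ 2 - 2 * p * q * β i + q ^ 2 * g i)) = 0 := by
      intro i
      rw [hqi i, hp]
      simp
    rw [Finset.sum_congr rfl fun i _ => hterm i, Finset.sum_const_zero, mul_zero]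
    linarith
  · set r : ℝ := √(p ^ 2 + q ^ 2 * y) with hr
    have hr0 : 0 < r := Real.sqrt_pos.2 h0
    have hr2 : r ^ 2 = p ^ 2 + q ^ 2 * y := Real.sq_sqrt hz0
    have ht := fun i => term_le a p q (β i) (g i) r ha hr0 (hp1 i) (hp2 i)
    have hU : ∑ i, (p ^ 2 + q ^ 2 * g i + r ^ 2) / r = 2 * d * r := by
      rw [← Finset.sum_div, Finset.sum_add_distrib, Finset.sum_add_distrib, ← Finset.mul_sum, hsum]
      simp only [Finset.sum_const, Finset.card_univ, Fintype.card_fin, nsmul_eq_mul]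
      rw [div_eq_iff hr0.ne']
      linear_combination (-(d : ℝ)) * hr2
    have hle : ∑ i, (√(a * p ^ 2 + 2 * p * q * β i + q ^ 2 * g i) +
        √(a * p ^ 2 - 2 * p * q * β i + q ^ 2 * g i)) ≤ ∑ i, (p ^ 2 + q ^ 2 * g i + r ^ 2) / r :=
      Finset.sum_le_sum fun i _ => (ht i).1
    set W : ℝ := ∑ i, (√(a * p ^ 2 + 2 * p * q * β i + q ^ 2 * g i) +
        √(a * p ^ 2 - 2 * p * q * β i + q ^ 2 * g i)) with hS
    have hr1 : r ≤ 1 + q ^ 2 * (y - c ^ 2) / 2 := by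
      have h1 : (r - 1) ^ 2 ≥ 0 := sq_nonneg _
      have h2 : r ^ 2 = 1 + q ^ 2 * (y - c ^ 2) := by rw [hr2, e]
      nlinarith
    have hL : 1 / (2 * (d : ℝ)) * W ≤ r := by
      rw [hU] at hle
      rw [one_div, inv_mul_le_iff₀ (by positivity)]
      exact hle
    refine ⟨by linarith, fun heq hp hq => ?_⟩
    have hLr : 1 / (2 * (d : ℝ)) * W = r := by linarith
    have hz : r = 1 + q ^ 2 * (y - c ^ 2) / 2 := by linarith
    have hS2 : W = ∑ i, (p ^ 2 + q ^ 2 * g i + r ^ 2) / r := by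
      rw [hU, ← hLr]
      field_simp
    have hall := (Finset.sum_eq_sum_iff_of_le fun i _ => (ht i).1).1 hS2
    have hq2 : q ^ 2 ≠ 0 := pow_ne_zero 2 hq
    have hyc : y = c ^ 2 := by
      have h2 : r ^ 2 = 1 + q ^ 2 * (y - c ^ 2) := by rw [hr2, e]
      have h3 : (q ^ 2 * (y - c ^ 2)) ^ 2 = 0 := by
        rw [hz] at h2
        nlinarith
      have h4 := pow_eq_zero_iff (two_ne_zero) |>.1 h3
      have h5 := (mul_eq_zero.1 h4).resolve_left hq2
      linarith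
    have hres := fun i => (ht i).2 (hall i (Finset.mem_univ i)) hp hq
    refine ⟨(hres ⟨0, by omega⟩).1, fun i => ⟨(hres i).2.1, ?_⟩⟩
    have h6 := (hres i).2.2
    rw [hr2] at h6
    have h7 : q ^ 2 * g i = q ^ 2 * y := by linarith
    rw [← hyc]
    exact mul_left_cancel₀ hq2 h7

end Pool.Agent.Y64.HC
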